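import Pool.Agent.Helper4.GX.Pre

/-!
# `G_FewA`
-/

set_option autoImplicit false

open Polynomial Matrix Finset NumberField IsDedekindDomain

namespace Pool.Agent.Helper4.GX

open Pool.Agent.Helper62.BM Pool.Agent.Helper62.BX Pool.Agent.Helper62.CX Pool.Agent.Helper62.GX
  Pool.Agent.Helper90.BM Pool.Agent.Helper4.BM Pool.Agent.Helper4.BX Pool.Agent.Helper4.CX
open Pool.Agent.Helper62.BW (dt coeff_dt map_dt sep_clear sep_map map_ne W_Irr W_Strong W_Tr W_FewG
  Fam IrrF Dat Gen)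

section maps

variable {ι : Type} [Fintype ι] [DecidableEq ι]

theorem map_LamG {A B : Type} [CommRing A] [CommRing B] (φ : A →+* B) (ρ : ι → ℕ)
    (a a' : ι → A[X]) :
    (LamG ρ a a').map φ = LamG ρ (fun l => (a l).map φ) (fun l => (a' l).map φ) := by
  unfold LamG
  rw [Polynomial.map_sum]
  refine Finset.sum_congr rfl fun l _ => ?_
  rw [Polynomial.map_mul, Polynomial.map_mul, Polynomial.map_natCast, Polynomial.map_prod]

variable {A B : Type} [CommRing A] [CommRing B] (φ : A →+* B)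

theorem map_relG {m N : ℕ} {ρ : ι → ℕ} {a : ι → A[X][X]} {W : A[X]} {P S : Fin N → A[X][X]}
    (h : RelG m ρ N a W P S) :
    RelG m ρ N (fun l => (a l).map (mapRingHom φ)) (W.map φ)
      (fun l => (P l).map (mapRingHom φ)) (fun l => (S l).map (mapRingHom φ)) := by
  intro l
  obtain ⟨h1, h2, h3⟩ := h l
  refine ⟨lt_of_le_of_lt natDegree_map_le h1, natDegree_map_le.trans h2, ?_⟩
  have h4 := congrArg (fun q => Polynomial.map (mapRingHom φ) q) h3
  simp only [Polynomial.map_mul, Polynomial.map_add, Polynomial.map_pow, Polynomial.map_X,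
    Polynomial.map_C, Polynomial.map_natCast, Polynomial.map_prod, map_dt, map_LamG,
    coe_mapRingHom] at h4
  simp only [derivative_map]
  exact h4

variable [IsDomain A] [IsDomain B]

theorem famG_map (hφ : Function.Injective φ) {m N : ℕ} {ρ nd : ι → ℕ} {a : ι → A[X][X]}
    {D : Cdat A N} {P S : Fin N → A[X][X]} (h : FamG m ρ nd a D P S) :
    FamG m ρ nd (fun l => (a l).map (mapRingHom φ)) (D.map φ)
      (fun l => (P l).map (mapRingHom φ)) (fun l => (S l).map (mapRingHom φ)) := by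
  obtain ⟨h1, h2, h3, h4⟩ := h
  refine ⟨genG_map φ hφ h1, h2, ?_, ?_⟩
  · rw [Pool.Agent.Helper62.CX.map_W]
    exact map_relG φ h3
  · show D.M.map (mapRingHom φ) = _
    rw [h4]
    ext1 i j
    rw [Matrix.map_apply, coe_mapRingHom, Pool.Agent.Helper36.CX.map_Mc]

end maps

section half

variable {ι : Type} [Fintype ι] [DecidableEq ι]

theorem YG_half (R : Type) [CommRing R] (p r m g : ℕ) (ρ : ι → ℕ) (hr : 0 < r)
    (hm : 2 * r = m) (hρ : ∀ l, ρ l = r) (hp : m ∣ p - 1) (a : ι → R[X]) (i j : Fin g) :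
    YG p (fun l => ρ l * ((p - 1) / m)) g g a i j = Yh p g (2 * g) (∏ l, a l) i (lo j) := by
  obtain ⟨c, hc⟩ := hp
  have h1 : (p - 1) / m = c := by
    rw [hc]
    exact Nat.mul_div_cancel_left _ (by omega)
  have h2 : (p - 1) / 2 = r * c := by
    rw [hc, ← hm, mul_assoc]
    exact Nat.mul_div_cancel_left _ (by omega)
  unfold YG Yh
  rw [Matrix.of_apply, Matrix.of_apply, h1, h2]
  have h3 : ∏ l, a l ^ (ρ l * c) = (∏ l, a l) ^ (r * c) := by
    rw [← Finset.prod_pow]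
    exact Finset.prod_congr rfl fun l _ => by rw [hρ]
  rw [h3]
  rfl

/-- the symplectic summand -/
theorem fewHalfG (hIrrHalf : G_IrrHalf) (wIrr : W_Irr) (wStrong : W_Strong)
    (wTr : W_Tr) (wG : W_FewG) (m r g d : ℕ) (ρ : ι → ℕ) (hd : d = g) (hm : 2 * r = m)
    (hρ : ∀ l, ρ l = r) (hr : 0 < r) (hg : 1 ≤ g)
    (A : Type) [CommRing A] [IsDomain A] [CharZero A] [Countable A]
    (a : ι → A[X][X]) (L : Type) [Field L] [CharZero L] (ψ : A →+* L)
    (hψ : Function.Injective ψ)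
    (hdat : ∃ (D : Dat A g) (P S : Fin (2 * g) → A[X][X]), Fam g (∏ l, a l) D P S ∧ D.Ok)
    (hirr : IrrG L m ρ (2 * g) (fun l => (a l).map (mapRingHom ψ)))
    (G : MvPolynomial (Fin d × Fin d) A[X]) (hG0 : G ≠ 0) (ε : ℝ) (hε : 0 < ε) :
    ∃ (p₀ : ℕ) (a₀ : A), a₀ ≠ 0 ∧
      ∀ (p : ℕ) [Fact p.Prime] (k : Type) [Field k] [CharP k p] (φ : A →+* k), p₀ ≤ p →
      m ∣ p - 1 → φ a₀ ≠ 0 → ∀ T : Finset k, (∀ t ∈ T, t ^ p = t ∧
        MvPolynomial.eval₂ ((evalRingHom t).comp (mapRingHom φ))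
          (fun s : Fin d × Fin d =>
          (YG p (fun j => ρ j * ((p - 1) / m)) d d
            (fun j => (a j).map (mapRingHom φ)) s.1 s.2).eval t) G = 0) →
        (T.card : ℝ) ≤ ε * p := by
  subst hd
  obtain ⟨D, P, S, hFam, hOk⟩ := hdat
  have k1 := Pool.Agent.Helper4.BW.fam_map ψ hψ hFam
  have k2 := Pool.Agent.Helper62.BW.ok_inj D hOk ψ hψ
  have k0 := hIrrHalf ι L m d ρ (by omega) (fun l => by rw [hρ, hm]) hg _ hirr
  rw [← Polynomial.map_prod] at k0
  have k3 := wIrr L d hg _ _ _ _ k1 k2 k0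
  have k4 := wStrong L d hg _ k2 k3
  have k5 := wTr A d D hOk L (FractionRing A) _ _ hψ
      (IsFractionRing.injective A (FractionRing A)) k4
  obtain ⟨p₀, a₀, ha₀, hfew⟩ := wG d hg A (∏ l, a l) D P S hFam hOk k5 G hG0 ε hε
  refine ⟨p₀, a₀, ha₀, ?_⟩
  intro p _ k _ _ φ hp hmp hφ T hT
  refine hfew p k φ hp hφ T fun t ht => ⟨(hT t ht).1, ?_⟩
  rw [← (hT t ht).2]
  congr 1
  funext s
  rw [YG_half k[X] p r m d ρ hr hm hρ hmp, Polynomial.map_prod]

end half

/-- `G_FewA`. -/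
theorem g_FewA (hStrong : C_Strong) (hTr : C_Tr) (hIrr : G_Irr) (hG : G_FewG)
    (hIrrHalf : G_IrrHalf) (wIrr : W_Irr) (wStrong : W_Strong) (wTr : W_Tr) (wG : W_FewG) :
    G_FewA := by
  intro ι _ _ m N ρ nd hρ hnd hN2 hdN hN A _ _ _ _ L _ _ θ hθ a hdat hdat2 hI hO G hG0 ε hε
  by_cases h2 : ∀ l, 2 * ρ l = m
  · -- the symplectic case
    obtain ⟨l₀⟩ : Nonempty ι := by
      by_contra hne
      rw [not_nonempty_iff] at hne
      rw [Finset.sum_of_isEmpty] at hN
      omega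
    obtain ⟨r, hr⟩ : ∃ r, r = ρ l₀ := ⟨_, rfl⟩
    have hm : 2 * r = m := by rw [hr]; exact h2 l₀
    have hρr : ∀ l, ρ l = r := fun l => by
      have := h2 l
      omega
    have hr0 : 0 < r := by rw [hr]; exact (hρ l₀).1
    have hsum : ∑ l, ρ l * nd l = r * (N + 1) := by
      rw [hN, Finset.mul_sum]
      exact Finset.sum_congr rfl fun l _ => by rw [hρr]
    obtain ⟨g, hg⟩ : ∃ g, N = 2 * g := by
      rcases Nat.even_or_odd' N with ⟨c, hc | hc⟩
      · exact ⟨c, hc⟩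
      · exfalso
        apply hnd
        rw [hsum, hc, ← hm]
        exact ⟨c + 1, by ring⟩
    subst hg
    have hdg : dG m ρ nd = g := by
      unfold dG
      rw [hsum, ← hm]
      have h3 : r * (2 * g + 1) = 2 * r * g + r := by ring
      rw [h3, Nat.mul_add_div (by omega), Nat.div_eq_of_lt (by omega)]
      omega
    exact fewHalfG hIrrHalf wIrr wStrong wTr wG m r g _ ρ hdg hm hρr hr0 (by omega) A a L θ hθ
      (hdat2 g h2 rfl) hI G hG0 ε hε
  · -- the special linear case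
    obtain ⟨D, P, S, hFam, hOk⟩ := hdat
    have k1 := famG_map θ hθ hFam
    have k2 := Pool.Agent.Helper62.CX.ok_inj D hOk θ hθ
    obtain ⟨i1, i2⟩ := hIrr ι L m N ρ nd hρ (by omega) _ _ _ _ k1 k2
    have k3 := i1 hI
    have k4 : (D.map θ).Strong := by
      refine hStrong L N hN2 _ k2 k3 ?_
      rcases hO with h | h | h | h
      · exact absurd h h2
      · exact Or.inl h
      · exact Or.inr (Or.inl h)
      · exact Or.inr (Or.inr (i2 k3 h))
    have k5 := hTr A N D hOk L (FractionRing A) _ _ hθ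
      (IsFractionRing.injective A (FractionRing A)) k4
    exact hG ι m N ρ nd hρ hnd hN2 hdN A a D P S hFam hOk k5 G hG0 ε hε

end Pool.Agent.Helper4.GX
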