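import Pool.Agent.Helper4.CX.FewPre
import Pool.Agent.Helper62.GX.Stm

/-!
# Preparations for `G_FewR`
-/

set_option autoImplicit false

open Polynomial Matrix Finset NumberField IsDedekindDomain

namespace Pool.Agent.Helper4.GX

open Pool.Agent.Helper62.BM Pool.Agent.Helper62.BX Pool.Agent.Helper62.CX Pool.Agent.Helper62.GX
  Pool.Agent.Helper90.BM Pool.Agent.Helper4.BM Pool.Agent.Helper4.BX Pool.Agent.Helper4.CX
open Pool.Agent.Helper62.BW (dt coeff_dt map_dt sep_clear sep_map map_ne Fam Dat Gen)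
open Pool.Agent.Helper4.BW (map_evalRingHom)

section nat

variable {ι : Type} [Fintype ι] [DecidableEq ι]

theorem rho_pos {m r : ℕ} {e : ι → ℕ} (hr : 0 < r) (hrm : r < m)
    (he : ∀ l, Nat.Coprime (e l) m) (l : ι) : 0 < rho m r e l ∧ rho m r e l < m := by
  refine ⟨Nat.pos_of_ne_zero fun h => ?_, Nat.mod_lt _ (by omega)⟩
  have h1 : m ∣ r * e l := Nat.dvd_of_mod_eq_zero h
  have h2 : m ∣ r := (he l).symm.dvd_of_dvd_mul_right h1
  exact absurd (Nat.le_of_dvd hr h2) (by omega)

theorem rho_add {m r : ℕ} {e : ι → ℕ} (hr : 0 < r) (hrm : r < m)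
    (he : ∀ l, Nat.Coprime (e l) m) {i₁ i₂ : ι} (h : e i₁ + e i₂ = m) :
    rho m r e i₁ + rho m r e i₂ = m := by
  obtain ⟨a1, a2⟩ := rho_pos hr hrm he i₁
  obtain ⟨b1, b2⟩ := rho_pos hr hrm he i₂
  have h1 : m ∣ rho m r e i₁ + rho m r e i₂ := by
    have h2 : (rho m r e i₁ + rho m r e i₂) ≡ r * e i₁ + r * e i₂ [MOD m] :=
      Nat.ModEq.add (Nat.mod_modEq _ _) (Nat.mod_modEq _ _)
    have h3 : r * e i₁ + r * e i₂ = r * m := by rw [← mul_add, h]
    rw [h3] at h2
    exact (Nat.modEq_zero_iff_dvd.1 (h2.trans (Nat.modEq_zero_iff_dvd.2 (dvd_mul_left m r))))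
  obtain ⟨c, hc⟩ := h1
  have hc1 : c = 1 := by
    rcases Nat.lt_trichotomy c 1 with h4 | h4 | h4
    · have : c = 0 := by omega
      rw [this, mul_zero] at hc
      omega
    · exact h4
    · have : m * 2 ≤ m * c := Nat.mul_le_mul_left _ h4
      omega
  rw [hc, hc1, mul_one]

theorem rho_sum {m r : ℕ} {e nd : ι → ℕ} (hr : 0 < r) (hrm : r < m)
    (h : Nat.Coprime (∑ l, e l * nd l) m) : ¬ m ∣ ∑ l, rho m r e l * nd l := by
  intro hd
  have h1 : (∑ l, rho m r e l * nd l) ≡ ∑ l, r * e l * nd l [MOD m] := by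
    have : ∀ s : Finset ι, (∑ l ∈ s, rho m r e l * nd l) ≡ ∑ l ∈ s, r * e l * nd l [MOD m] := by
      intro s
      induction s using Finset.induction_on with
      | empty => exact Nat.ModEq.refl _
      | insert x s hx ih =>
        rw [Finset.sum_insert hx, Finset.sum_insert hx]
        exact Nat.ModEq.add ((Nat.mod_modEq _ _).mul_right _) ih
    exact this _
  have h2 : ∑ l, r * e l * nd l = r * ∑ l, e l * nd l := by
    rw [Finset.mul_sum]
    exact Finset.sum_congr rfl fun l _ => mul_assoc _ _ _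
  rw [h2] at h1
  have h3 : m ∣ r * ∑ l, e l * nd l :=
    Nat.modEq_zero_iff_dvd.1 (h1.symm.trans (Nat.modEq_zero_iff_dvd.2 hd))
  have h4 : m ∣ r := h.symm.dvd_of_dvd_mul_right h3
  exact absurd (Nat.le_of_dvd hr h4) (by omega)

theorem rho_half {m r : ℕ} {e : ι → ℕ} (hr : 0 < r) (hm : 2 * r = m)
    (he : ∀ l, Nat.Coprime (e l) m) (l : ι) : 2 * rho m r e l = m := by
  have h1 : ¬ 2 ∣ e l := by
    intro h2
    have h3 : 2 ∣ Nat.gcd (e l) m := Nat.dvd_gcd h2 ⟨r, hm.symm⟩
    rw [he l] at h3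
    omega
  obtain ⟨c, hc⟩ : ∃ c, e l = 2 * c + 1 := ⟨e l / 2, by omega⟩
  have h2 : rho m r e l = r := by
    unfold rho
    rw [hc, ← hm]
    have : r * (2 * c + 1) = r + 2 * r * c := by ring
    rw [this, Nat.add_mul_mod_self_left]
    exact Nat.mod_eq_of_lt (by omega)
  rw [h2, hm]

theorem dG_lt {m N : ℕ} {ρ nd : ι → ℕ} {i₁ i₂ : ι} (hne : i₁ ≠ i₂)
    (hρ : ∀ l, 0 < ρ l ∧ ρ l < m) (hadd : ρ i₁ + ρ i₂ = m) (hN2 : 2 ≤ N)
    (hN : N + 1 = ∑ l, nd l) (h1 : 1 ≤ nd i₁) (h2 : 1 ≤ nd i₂) : dG m ρ nd < N := by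
  unfold dG
  have hm : 0 < m := (hρ i₁).1.trans (hρ i₁).2
  rw [Nat.div_lt_iff_lt_mul hm]
  -- `∑ (m - ρ) nd > m`
  have hsum : ∀ l, ρ l * nd l + (m - ρ l) * nd l = m * nd l := by
    intro l
    rw [← add_mul]
    congr 1
    have := (hρ l).2
    omega
  have hs : ∑ l, ρ l * nd l + ∑ l, (m - ρ l) * nd l = m * (N + 1) := by
    rw [← Finset.sum_add_distrib, hN, Finset.mul_sum]
    exact Finset.sum_congr rfl fun l _ => hsum l
  have hlow : m + (N + 1) - 2 ≤ ∑ l, (m - ρ l) * nd l := by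
    let u : ι → ℕ := fun l => nd l + if l = i₁ then (m - ρ i₁) - 1 else if l = i₂ then
      (m - ρ i₂) - 1 else 0
    have hu : ∀ l, u l ≤ (m - ρ l) * nd l := by
      intro l
      have hl := (hρ l)
      have key : ∀ x y : ℕ, 1 ≤ x → 1 ≤ y → y + (x - 1) ≤ x * y := by
        intro x y hx hy
        obtain ⟨x', rfl⟩ := Nat.exists_eq_add_of_le hx
        obtain ⟨y', rfl⟩ := Nat.exists_eq_add_of_le hy
        have : (1 + x') * (1 + y') = 1 + x' + y' + x' * y' := by ring
        rw [this]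
        omega
      by_cases e1 : l = i₁
      · subst e1
        change nd l + (if l = l then _ else _) ≤ _
        rw [if_pos rfl]
        exact key _ _ (by omega) h1
      · by_cases e2 : l = i₂
        · subst e2
          change nd l + (if l = i₁ then _ else if l = l then _ else _) ≤ _
          rw [if_neg e1, if_pos rfl]
          exact key _ _ (by omega) h2
        · change nd l + (if l = i₁ then _ else if l = i₂ then _ else _) ≤ _
          rw [if_neg e1, if_neg e2, add_zero]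
          exact Nat.le_mul_of_pos_left _ (by omega)
    have hsu : ∑ l, u l = (N + 1) + ((m - ρ i₁ - 1) + (m - ρ i₂ - 1)) := by
      change ∑ l, (nd l + _) = _
      rw [Finset.sum_add_distrib, hN]
      congr 1
      have h3 : ∀ l, (if l = i₁ then (m - ρ i₁) - 1 else if l = i₂ then (m - ρ i₂) - 1 else 0) =
          (if l = i₁ then (m - ρ i₁) - 1 else 0) + (if l = i₂ then (m - ρ i₂) - 1 else 0) := by
        intro l
        by_cases e1 : l = i₁
        · subst e1
          rw [if_pos rfl, if_pos rfl, if_neg hne, add_zero]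
        · rw [if_neg e1, if_neg e1, zero_add]
      rw [Finset.sum_congr rfl fun l _ => h3 l, Finset.sum_add_distrib, Finset.sum_ite_eq',
        Finset.sum_ite_eq', if_pos (Finset.mem_univ _), if_pos (Finset.mem_univ _)]
    have h4 := Finset.sum_le_sum fun l (_ : l ∈ (univ : Finset ι)) => hu l
    rw [hsu] at h4
    have := (hρ i₁)
    have := (hρ i₂)
    omega
  have h5 : N * m + m = m * (N + 1) := by ring
  omega

end nat

section maps

variable {ι : Type} [Fintype ι] [DecidableEq ι]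

theorem map_YG {A B : Type} [CommRing A] [CommRing B] (φ : A →+* B) {p : ℕ} {q : ι → ℕ} {d N : ℕ}
    (a : ι → A[X]) : (YG p q d N a).map φ = YG p q d N (fun j => (a j).map φ) := by
  ext1 i l
  rw [Matrix.map_apply, YG, Matrix.of_apply, YG, Matrix.of_apply, ← coeff_map]
  simp only [Polynomial.map_mul, Polynomial.map_pow, Polynomial.map_X, Polynomial.map_prod]

variable {A B : Type} [CommRing A] [CommRing B] [IsDomain A] [IsDomain B] (φ : A →+* B)

theorem genG_map (hφ : Function.Injective φ) {nd : ι → ℕ} {a : ι → A[X][X]} (h : GenG nd a) :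
    GenG nd (fun l => (a l).map (mapRingHom φ)) := by
  obtain ⟨h1, h5⟩ := h
  refine ⟨fun l => ⟨(h1 l).1.map _, by rw [(h1 l).1.natDegree_map, (h1 l).2]⟩, ?_⟩
  obtain ⟨u, v, r, hr, huv⟩ := sep_clear (∏ l, a l) h5
  have h6 := sep_map ((algebraMap B[X] (FractionRing B[X])).comp (mapRingHom φ)) (∏ l, a l) u v r
    huv (by
    intro h0
    rw [RingHom.comp_apply] at h0
    have h5 := (IsFractionRing.injective B[X] (FractionRing B[X])) (h0.trans (map_zero _).symm)
    exact hr (Polynomial.map_injective φ hφ (by rw [Polynomial.map_zero]; exact h5)))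
  rwa [← Polynomial.map_map, Polynomial.map_prod (mapRingHom φ)] at h6

end maps

section ring

variable {ι : Type} [Fintype ι] [DecidableEq ι]

theorem exists_ringG {R L : Type} [CommRing R] [IsDomain R] [Field L] [Algebra R L] (i₁ i₂ : ι)
    (a : ι → R[X][X]) (t₀ x₀ : L) (a₁ : ι → L[X])
    (hN : NodeG i₁ i₂ (fun l => (a l).map (mapRingHom (algebraMap R L))) t₀ x₀ a₁) :
    ∃ (A : Subalgebra R L), A.FG ∧ ∃ (t x : A) (a' : ι → A[X]),
      NodeG i₁ i₂ (fun l => (a l).map (mapRingHom (algebraMap R A))) t x a' := by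
  classical
  set S : Finset L := {t₀, x₀} ∪ univ.biUnion (fun l => (a₁ l).coeffs) with hS
  set A : Subalgebra R L := Algebra.adjoin R (S : Set _) with hA
  have hsub : ∀ y ∈ S, y ∈ A := fun y hy => Algebra.subset_adjoin hy
  have ht : t₀ ∈ A := hsub _ (by rw [hS]; simp)
  have hx : x₀ ∈ A := hsub _ (by rw [hS]; simp)
  have hfa : ∀ l n, (a₁ l).coeff n ∈ A := by
    intro l n
    by_cases h : (a₁ l).coeff n = 0
    · rw [h]; exact A.zero_mem
    · exact hsub _ (by
        rw [hS]
        exact Finset.mem_union_right _ (Finset.mem_biUnion.2 ⟨l, Finset.mem_univ _,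
          coeff_mem_coeffs h⟩))
  set ψ : A →+* L := (A.val : A →+* L) with hψ
  have hval : Function.Injective ψ := Subtype.val_injective
  have hex : ∀ l, ∃ f : A[X], f.map ψ = a₁ l := by
    intro l
    have h1 : a₁ l ∈ Polynomial.lifts ψ := (Polynomial.lifts_iff_coeff_lifts (a₁ l)).2 fun n =>
      ⟨⟨(a₁ l).coeff n, hfa l n⟩, rfl⟩
    exact (Polynomial.mem_lifts _).1 h1
  choose a' haa using hex
  have hFF : ∀ F : R[X][X], (F.map (mapRingHom (algebraMap R A))).map (mapRingHom ψ) =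
      F.map (mapRingHom (algebraMap R L)) := by
    intro F
    rw [Polynomial.map_map, mapRingHom_comp]
    rfl
  have hprod : (∏ l, a' l).map ψ = ∏ l, a₁ l := by
    rw [Polynomial.map_prod]
    exact Finset.prod_congr rfl fun l _ => haa l
  obtain ⟨k0, k1, k3, k4⟩ := hN
  refine ⟨A, ⟨S, rfl⟩, ⟨t₀, ht⟩, ⟨x₀, hx⟩, a', k0, fun l => ?_, ?_, ?_⟩
  · apply Polynomial.map_injective ψ hval
    rw [map_evalRingHom, hFF]
    have h2 := k1 l
    by_cases hl : l = i₁ ∨ l = i₂
    · rw [if_pos hl] at h2 ⊢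
      rw [Polynomial.map_mul, Polynomial.map_sub, Polynomial.map_X, Polynomial.map_C, haa]
      exact h2
    · rw [if_neg hl] at h2 ⊢
      rw [haa]
      exact h2
  · have h1 : (∏ l, a₁ l).Separable := (separable_map _).1 k3
    rw [← hprod] at h1
    set L' : FractionRing A →+* L := IsFractionRing.lift (K := FractionRing A) hval with hL
    have h3 : L'.comp (algebraMap A (FractionRing A)) = ψ := by
      ext x
      rw [RingHom.comp_apply, hL, IsFractionRing.lift_algebraMap]
    rw [← separable_map L', Polynomial.map_map, h3]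
    exact h1
  · intro h
    apply k4
    have h1 := congrArg ψ h
    rw [map_zero, ← Polynomial.eval_map_apply, hprod] at h1
    exact h1

/-- the degrees are positive at the node -/
theorem nd_pos {A : Type} [CommRing A] [IsDomain A] {nd : ι → ℕ} {a : ι → A[X][X]}
    (hgen : GenG nd a) {i₁ i₂ : ι} {t₀ x₀ : A} {a₁ : ι → A[X]} (hnode : NodeG i₁ i₂ a t₀ x₀ a₁)
    (l : ι) (hl : l = i₁ ∨ l = i₂) : 1 ≤ nd l := by
  have h1 := hnode.2.1 l
  rw [if_pos hl] at h1
  have hmon := (hgen.1 l).1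
  have h2 : ((a l).map (evalRingHom t₀)).natDegree = nd l := by
    rw [hmon.natDegree_map, (hgen.1 l).2]
  have h3 : (a l).map (evalRingHom t₀) ≠ 0 := (hmon.map _).ne_zero
  have h4 : a₁ l ≠ 0 := by
    intro h
    rw [h1, h, mul_zero] at h3
    exact h3 rfl
  rw [h1, natDegree_mul (X_sub_C_ne_zero x₀) h4, natDegree_X_sub_C] at h2
  omega

end ring

end Pool.Agent.Helper4.GX
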